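import Pool.Agent.TH117.GN.NCHom

/-!
# The noncommutative standard conjecture of type D for dg categories generated by abelian varieties
over finite fields

Over an algebraic closure of the field with `p` elements each abelian variety is isogenous to the
reduction of an abelian variety of CM type (Honda, Tate). So an abelian variety over the field with
`p ^ a` elements is modelled by `RedAV`: a finite product of CM types `(E i, Φ i)` with Weil numbers
`π i ∈ E i` that satisfy the formula of Shimura and Taniyama; its cohomology of degree `n`, with
coefficients in an algebraically closed field `Ω`, consists of the alternating `n`-forms on
`Ω ⊗ H_1`, on which the Frobenius endomorphism acts by `π`.

We consider (`IsAllowed`) the abelian varieties `Y` (any Newton polygons) such that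

* the dimension of `Y` is at most five, and `Y` is not a product of two surfaces with non-Galois
  quartic CM fields with the same Galois closure and of a supersingular elliptic curve, with a special
  relation between the Frobenius eigenvalues (`IsExceptional`); or
* `Y` is isogenous, over an algebraic closure, to a product of a supersingular abelian variety and of
  powers of the factors of an abelian variety `Z` (any dimension) such that the multiplicative
  relations between the Frobenius eigenvalues of `Z`, the square root of the number `q` of elements
  of the ground field and roots of unity are generated by relations of the following kinds
  (`HasElementaryRelations`): those that involve at most two eigenvalues; Weil relations of imaginary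
  quadratic fields on products of factors of `Z` of dimension three, four or five, or of dimension six
  if `p` splits in the quadratic field; those between the Frobenius eigenvalues of a product of factors
  of `Z` of dimension at most five no two of which form an exceptional pair; those between the Frobenius
  eigenvalues of a product of factors of `Z` of dimension at most three, two of which are isogenous if
  their CM fields have the same Galois closure over `ℚ`, unless these CM fields are Galois over `ℚ` or
  one of the two factors is supersingular.

Let `𝒜` be a smooth proper dg category over a finite field whose noncommutative motive (with rational
coefficients) is a direct summand of a finite sum of the noncommutative motives of such abelian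
varieties, `K = K_0(𝒜)_ℚ`, and let `cl : K → H` be the noncommutative cycle class map to topological
periodic cyclic homology (of which we only use that the Euler pairing depends only on the classes).
Then homological and numerical equivalence on `K` coincide; in fact both kernels are zero.

The properties of the theory of cycles on the abelian varieties `Y` that are used (`IsChow`) are
Poincaré duality, formal properties of correspondences, the nilpotence of homologically trivial
correspondences (Kimura) and the algebraicity of the classes in `Alg` (theorems of Tate and Markman).
-/

namespace Pool.Agent.Results.MP_28af06_ag.ElementaryAbelian

open Pool.Agent.TH117.GN.NC

/-- An element of `K_0(𝒜)_ℚ` is homologically trivial if and only if it is numerically trivial. -/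
theorem result (p : ℕ) [Fact p.Prime] (ν : PadicAlgCl p ≃+* ℂ) (Ω : Type) [Field Ω]
    [IsAlgClosed Ω] [CharZero Ω] (K H : Type) [AddCommGroup K] [AddCommGroup H] (χ : K → K → ℚ)
    (hK : IsGeneratedByAllowed p ν Ω χ) (cl : K → H) (hcl : IsClassMap χ cl) (x : K) :
    cl x = 0 ↔ ∀ z, χ z x = 0 :=
  hom_iff_num hK hcl x

end Pool.Agent.Results.MP_28af06_ag.ElementaryAbelian
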