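import Pool.Agent.TH629.NC.Main

/-!
# The noncommutative standard conjecture D and nilpotency indices of subpolynomial size
-/

set_option autoImplicit false

universe u v w

open Pool.Agent.TH629.NC

namespace Pool.Agent.Results.MP_28af06_ag.SubpolynomialIdentities

/-- (0) For every noncommutative motive `B` the nilpotent numerically trivial endomorphisms `f` of `B`
satisfy `f ^ m = 0` modulo homological equivalence for `m = dim H B`. The following are equivalent:
(1) `V_hom = V_num` for all smooth proper dg categories; (2) for every `ε > 0` there is `C` such that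
for all `B` this holds for some `m ≤ C (dim H B + 1)^ε`; (3) for every `ε > 0` there is `C` such that
for all `B` the numerically trivial endomorphisms of `B` which generate nilpotent algebras satisfy,
modulo homological equivalence, a polynomial identity in which some monomial of degree at most
`C (dim H B + 1)^ε` occurs; (4) for every `ε > 0` there is `C` such that for every dg category `B`
they satisfy one in which some monomial of degree at most `ε log(dim H B + 1) + C` occurs; (5) for any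
given `p ≠ 0` without constant term: `p` is such an identity for every dg category. Moreover (6)
`V_hom = V_num` holds for `A` if, for some `n`, there is such an identity for `⊕_{i ≤ n} Sym^i A`, or
for `⊕_{i ≤ n} A^{⊗ i}`, in which some monomial of degree at most `n` occurs. -/
theorem result {F : Type w} [Field F] [CharZero F] {T : NCMotives.{u, v, w} F} {O : Tensors T}
    {S : Sums T} {P : SymPowers T} (hG : IsGood O S P) :
    (∀ B : T.Obj, HasNilIndex T B (dimH T B)) ∧
    ((∀ A : T.Obj, T.IsDg A → TypeD T A) ↔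
      ∀ ε : ℝ, 0 < ε → ∃ C : ℝ, ∀ B : T.Obj, ∃ m : ℕ, (m : ℝ) ≤ C * ((dimH T B : ℝ) + 1) ^ ε ∧
        HasNilIndex T B m) ∧
    ((∀ A : T.Obj, T.IsDg A → TypeD T A) ↔
      ∀ ε : ℝ, 0 < ε → ∃ C : ℝ, ∀ B : T.Obj, HasIdentity T B (C * ((dimH T B : ℝ) + 1) ^ ε)) ∧
    ((∀ A : T.Obj, T.IsDg A → TypeD T A) ↔
      ∀ ε : ℝ, 0 < ε → ∃ C : ℝ, ∀ B : T.Obj, T.IsDg B →
        HasIdentity T B (ε * Real.log ((dimH T B : ℝ) + 1) + C)) ∧
    (∀ p : List ℕ →₀ ℚ, p ≠ 0 → p [] = 0 →
      ((∀ A : T.Obj, T.IsDg A → TypeD T A) ↔ ∀ B : T.Obj, T.IsDg B → IsIdentity T B p)) ∧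
    (∀ (A : T.Obj) (n : ℕ) (p : List ℕ →₀ ℚ) (l : List ℕ), l.length ≤ n → p l ≠ 0 →
      (IsIdentity T (S.sum n (P.sym A)) p ∨ IsIdentity T (S.sum n (pow O A)) p) → TypeD T A) := by
  have h1 : ∀ {ε : ℝ}, 0 < ε → ∀ B : T.Obj, ((1 : ℕ) : ℝ) ≤ 1 * ((dimH T B : ℝ) + 1) ^ ε := by
    intro ε hε B
    rw [one_mul, Nat.cast_one]
    exact Real.one_le_rpow (by linarith [(Nat.cast_nonneg (dimH T B) : (0 : ℝ) ≤ _)]) hε.le
  refine ⟨hasNilIndex_dim hG, ⟨fun h ε hε => ⟨1, fun B => ⟨1, h1 hε B, hasNilIndex_of_typeD hG h B⟩⟩,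
    fun h A _ => typeD_of_subpolynomial hG (fun ε hε => ?_) A⟩,
    ⟨fun h ε hε => ⟨1, fun B => hasIdentity_of_nilIndex hG (hasNilIndex_of_typeD hG h B) (h1 hε B)⟩,
      fun h A _ => typeD_of_subpolynomial hG h A⟩,
    ⟨fun h ε hε => ⟨1, fun B _ => hasIdentity_of_nilIndex hG (hasNilIndex_of_typeD hG h B) ?_⟩,
      fun h A hA => typeD_of_sublogarithmic hG h A hA⟩,
    fun p hp h0 => ⟨fun h B _ => isIdentity_of_typeD hG h B h0, fun h A hA => ?_⟩,
    fun A n p l hl hpl h => ?_⟩
  · obtain ⟨C, hC⟩ := h ε hε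
    refine ⟨C, fun B => ?_⟩
    obtain ⟨m, hm, hB⟩ := hC B
    exact hasIdentity_of_nilIndex hG hB hm
  · have h1 : 0 ≤ Real.log ((dimH T B : ℝ) + 1) :=
      Real.log_nonneg (by linarith [(Nat.cast_nonneg (dimH T B) : (0 : ℝ) ≤ _)])
    rw [Nat.cast_one]
    nlinarith [mul_nonneg hε.le h1]
  · obtain ⟨l, hl⟩ := Finsupp.ne_iff.1 hp
    exact typeD_of_pow hG (h _ (hG.sums.dg_sum l.length _ fun i _ => pow_dg hG hA i)) le_rfl hl
  · rcases h with h | h
    · exact typeD_of_sym hG h hl hpl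
    · exact typeD_of_pow hG h hl hpl

end Pool.Agent.Results.MP_28af06_ag.SubpolynomialIdentities
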